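import Pool.Agent.Helper14.SP2.St.D

/-!
# Project SP2, piece D2: attachments
-/

set_option autoImplicit false

namespace Pool.Agent.Helper14.SP

open Finset Classical
open Pool.Agent.Helper97.RE (IsPath Rich PP Clean Cb)

theorem d2_card_first {V : Type} [Fintype V] (G : SimpleGraph V) (Δ : ℕ)
    (hΔ : ∀ w, G.degree w ≤ Δ) (n : ℕ) (v : V) : #{p ∈ PP G n | p 0 = v} ≤ Δ ^ n := by
  have h := Pool.Agent.Helper97.RE.card_window G Δ hΔ 0 {fun _ => v} n 0 (by omega)
  simp only [Nat.sub_zero, card_singleton, mul_one] at h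
  refine le_trans (card_le_card ?_) h
  intro p hp
  rw [mem_filter] at hp ⊢
  refine ⟨hp.1, ?_⟩
  rw [mem_singleton]
  funext i
  obtain rfl : i = 0 := Fin.ext (by omega)
  rw [Pool.Agent.Helper97.RE.win_zero]
  exact hp.2

/-- one vertex at a time -/
theorem d2_step (k m K B M : ℕ) (R : ℕ → ℕ) (hm : 1 ≤ m) (hmk : m < k) {V O : Type} [Fintype V]
    (G : SimpleGraph V) (d r : ℕ) (hG : ∀ w, G.degree w ≤ K * d)
    (hd : 2 * B * (M * Cb R (k - m)) + 1 ≤ d) (Ω : Finset O) (u y : O → V) (S : O → Finset V)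
    (h : ∀ ω ∈ Ω, Att G k r B d R m (u ω) (y ω) ∧ #(S ω) ≤ M) :
    ∃ ζ : V → V, #Ω ≤ (2 * B * K ^ (k - m)) *
      #{ω ∈ Ω | Rich G k r (u ω) (ζ (y ω)) ∧ ζ (y ω) ∉ S ω} := by
  obtain ⟨n, hn⟩ : ∃ n, n = k - m := ⟨_, rfl⟩
  have hn1 : 1 ≤ n := by omega
  have hnk : n ≤ k - 1 := by omega
  have hd0 : 0 < d := by omega
  -- the good paths of `ω`
  obtain ⟨Q, hQ⟩ : ∃ Q : O → Finset (Fin (n + 1) → V), Q = fun ω => {p ∈ PP G n | p 0 = y ω ∧
    Clean G (k - 1) R p ∧ Rich G k r (u ω) (p (Fin.last n))} := ⟨_, rfl⟩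
  obtain ⟨Q', hQ'⟩ : ∃ Q' : O → Finset (Fin (n + 1) → V),
    Q' = fun ω => {p ∈ Q ω | p (Fin.last n) ∉ S ω} := ⟨_, rfl⟩
  have hQc : ∀ ω ∈ Ω, d ^ n ≤ 2 * B * #(Q' ω) := by
    intro ω hω
    obtain ⟨h1, h2⟩ := h ω hω
    have h3 : d ^ n ≤ B * #(Q ω) := by
      rw [hQ]
      subst hn
      exact h1
    have h4 : #(Q ω) ≤ #(Q' ω) + M * Cb R n := by
      have h5 : #{p ∈ Q ω | ¬ p (Fin.last n) ∉ S ω} ≤ M * Cb R n := by
        have h6 : ({p ∈ Q ω | ¬ p (Fin.last n) ∉ S ω} : Finset (Fin (n + 1) → V)) ⊆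
            (S ω).biUnion fun z => {p ∈ PP G n | Clean G (k - 1) R p ∧ p 0 = y ω ∧
              p (Fin.last n) = z} := by
          intro p hp
          rw [hQ] at hp
          simp only [mem_filter, not_not] at hp
          rw [mem_biUnion]
          refine ⟨_, hp.2, ?_⟩
          rw [mem_filter]
          exact ⟨hp.1.1, hp.1.2.2.1, hp.1.2.1, rfl⟩
        refine (card_le_card h6).trans (card_biUnion_le.trans ?_)
        have h7 : ∀ z ∈ S ω, #{p ∈ PP G n | Clean G (k - 1) R p ∧ p 0 = y ω ∧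
            p (Fin.last n) = z} ≤ Cb R n := fun z _ => by
          have := Pool.Agent.Helper97.RE.cnt_le G (k - 1) R n hnk (y ω) z
          unfold Pool.Agent.Helper97.RE.cnt at this
          exact this
        refine (sum_le_sum h7).trans ?_
        rw [sum_const, smul_eq_mul]
        exact Nat.mul_le_mul_right _ h2
      have h8 := card_filter_add_card_filter_not (s := Q ω)
        (fun p : Fin (n + 1) → V => p (Fin.last n) ∉ S ω)
      have h9 : Q' ω = {p ∈ Q ω | p (Fin.last n) ∉ S ω} := by rw [hQ']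
      rw [h9]
      omega
    have h5 : d ≤ d ^ n := Nat.le_self_pow (by omega) d
    rw [← hn] at hd
    have h6 : B * #(Q ω) ≤ B * #(Q' ω) + B * (M * Cb R n) := by
      rw [← Nat.mul_add]
      exact Nat.mul_le_mul_left _ h4
    have h7 : 2 * B * (M * Cb R n) = 2 * (B * (M * Cb R n)) := by ring
    have h8 : 2 * B * #(Q' ω) = 2 * (B * #(Q' ω)) := by ring
    omega
  -- the best end for every starting point
  obtain ⟨g, hg⟩ : ∃ g : V → V → ℕ, g = fun v z =>
    #{ω ∈ Ω | y ω = v ∧ (Rich G k r (u ω) z ∧ z ∉ S ω)} := ⟨_, rfl⟩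
  have hex : ∀ v : V, ∃ z : V, ∀ z', g v z' ≤ g v z := by
    intro v
    obtain ⟨z, _, hz⟩ := exists_max_image univ (g v) ⟨v, mem_univ v⟩
    exact ⟨z, fun z' => hz z' (mem_univ z')⟩
  choose ζ hζ using hex
  refine ⟨ζ, ?_⟩
  have hv : ∀ v : V, #{ω ∈ Ω | y ω = v} ≤ (2 * B * K ^ n) * g v (ζ v) := by
    intro v
    have h1 : d ^ n * #{ω ∈ Ω | y ω = v} ≤ 2 * B * ∑ ω ∈ Ω with y ω = v, #(Q' ω) := by
      rw [mul_comm, mul_sum, ← smul_eq_mul, ← sum_const]
      exact sum_le_sum fun ω hω => hQc ω (mem_filter.1 hω).1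
    have h2 : ∑ ω ∈ Ω with y ω = v, #(Q' ω) ≤ (K * d) ^ n * g v (ζ v) := by
      have h3 : ∑ ω ∈ Ω with y ω = v, #(Q' ω) =
          ∑ p ∈ {p ∈ PP G n | p 0 = v}, #{ω ∈ {ω ∈ Ω | y ω = v} | p ∈ Q' ω} := by
        have h4 : ∀ ω ∈ ({ω ∈ Ω | y ω = v} : Finset O),
            #(Q' ω) = #{p ∈ ({p ∈ PP G n | p 0 = v} : Finset (Fin (n + 1) → V)) | p ∈ Q' ω} := by
          intro ω hω
          rw [mem_filter] at hω
          congr 1
          ext p
          rw [mem_filter, mem_filter]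
          constructor
          · intro hp
            refine ⟨?_, hp⟩
            rw [hQ', hQ] at hp
            simp only [mem_filter] at hp
            exact ⟨hp.1.1, hp.1.2.1.trans hω.2⟩
          · intro hp
            exact hp.2
        rw [sum_congr rfl h4]
        exact sum_card_bipartiteAbove_eq_sum_card_bipartiteBelow (fun ω p => p ∈ Q' ω)
      rw [h3]
      have h5 : ∀ p ∈ ({p ∈ PP G n | p 0 = v} : Finset (Fin (n + 1) → V)),
          #{ω ∈ ({ω ∈ Ω | y ω = v} : Finset O) | p ∈ Q' ω} ≤ g v (ζ v) := by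
        intro p hp
        refine le_trans ?_ (hζ v (p (Fin.last n)))
        rw [hg]
        refine card_le_card ?_
        intro ω hω
        rw [mem_filter, mem_filter] at hω
        rw [mem_filter]
        have h6 := hω.2
        rw [hQ', hQ] at h6
        simp only [mem_filter] at h6
        exact ⟨hω.1.1, hω.1.2, h6.1.2.2.2, h6.2⟩
      refine (sum_le_sum h5).trans ?_
      rw [sum_const, smul_eq_mul]
      exact Nat.mul_le_mul_right _ (d2_card_first G (K * d) hG n v)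
    have h6 : d ^ n * #{ω ∈ Ω | y ω = v} ≤ d ^ n * ((2 * B * K ^ n) * g v (ζ v)) := by
      refine h1.trans ((Nat.mul_le_mul_left _ h2).trans (le_of_eq ?_))
      rw [mul_pow]
      ring
    exact Nat.le_of_mul_le_mul_left h6 (pow_pos hd0 n)
  have h1 : #Ω = ∑ v : V, #{ω ∈ Ω | y ω = v} :=
    card_eq_sum_card_fiberwise fun ω _ => mem_univ _
  have h2 : #{ω ∈ Ω | Rich G k r (u ω) (ζ (y ω)) ∧ ζ (y ω) ∉ S ω} = ∑ v : V, g v (ζ v) := by
    rw [card_eq_sum_card_fiberwise (f := y) (t := univ) fun ω _ => mem_univ _]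
    refine sum_congr rfl fun v _ => ?_
    rw [hg]
    congr 1
    ext ω
    simp only [mem_filter]
    constructor
    · rintro ⟨⟨a1, a2⟩, rfl⟩
      exact ⟨a1, rfl, a2⟩
    · rintro ⟨a1, rfl, a2⟩
      exact ⟨⟨a1, a2⟩, rfl⟩
  rw [h1, h2, mul_sum, ← hn]
  exact sum_le_sum fun v _ => hv v

/-- D2 -/
theorem attach' (F : Type) [Fintype F] (k m K B M : ℕ) (R : ℕ → ℕ) (hm : 1 ≤ m) (hmk : m < k) :
    ∃ C d0 : ℕ, ∀ {V O : Type} [Fintype V] (G : SimpleGraph V) (d r : ℕ),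
      (∀ w, G.degree w ≤ K * d) → d0 ≤ d → ∀ (Ω : Finset O) (u y : O → V) (S : O → Finset V),
      (∀ ω ∈ Ω, Att G k r B d R m (u ω) (y ω) ∧ #(S ω) ≤ M) →
      ∃ ζ : V → F → V, #Ω ≤ C * #{ω ∈ Ω | Function.Injective (ζ (y ω)) ∧
        ∀ f, Rich G k r (u ω) (ζ (y ω) f) ∧ ζ (y ω) f ∉ S ω} := by
  refine ⟨(2 * B * K ^ (k - m)) ^ Fintype.card F,
    2 * B * ((M + Fintype.card F) * Cb R (k - m)) + 1, ?_⟩
  intro V O _ G d r hG hd Ω u y S h
  have key : ∀ A : Finset F, ∃ ζ : V → F → V, #Ω ≤ (2 * B * K ^ (k - m)) ^ #A *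
      #{ω ∈ Ω | Set.InjOn (ζ (y ω)) (A : Set F) ∧
        ∀ f ∈ A, Rich G k r (u ω) (ζ (y ω) f) ∧ ζ (y ω) f ∉ S ω} := by
    intro A
    induction A using Finset.induction_on with
    | empty =>
      refine ⟨fun v _ => v, ?_⟩
      simp
    | insert a A ha ih =>
      obtain ⟨ζ, hζ⟩ := ih
      obtain ⟨Ω', hΩ'⟩ : ∃ Ω' : Finset O, Ω' = {ω ∈ Ω | Set.InjOn (ζ (y ω)) (A : Set F) ∧
        ∀ f ∈ A, Rich G k r (u ω) (ζ (y ω) f) ∧ ζ (y ω) f ∉ S ω} := ⟨_, rfl⟩
      rw [← hΩ'] at hζ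
      obtain ⟨ζ', hζ'⟩ := d2_step k m K B (M + Fintype.card F) R hm hmk G d r hG hd Ω' u y
        (fun ω => S ω ∪ A.image (ζ (y ω))) (by
          intro ω hω
          rw [hΩ', mem_filter] at hω
          refine ⟨(h ω hω.1).1, ?_⟩
          refine (card_union_le _ _).trans (Nat.add_le_add (h ω hω.1).2 ?_)
          exact card_image_le.trans (card_le_univ A))
      refine ⟨fun v => Function.update (ζ v) a (ζ' v), ?_⟩
      rw [card_insert_of_notMem ha, pow_succ, mul_assoc]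
      refine hζ.trans (Nat.mul_le_mul_left _ (hζ'.trans (Nat.mul_le_mul_left _ ?_)))
      refine card_le_card ?_
      intro ω hω
      rw [mem_filter, hΩ', mem_filter] at hω
      obtain ⟨⟨h1, h2, h3⟩, h4, h5⟩ := hω
      rw [mem_union, not_or, mem_image] at h5
      have hup : ∀ f ∈ A, Function.update (ζ (y ω)) a (ζ' (y ω)) f = ζ (y ω) f := fun f hf =>
        Function.update_of_ne (fun hfa : f = a => ha (by rw [← hfa]; exact hf)) _ _
      rw [mem_filter]
      refine ⟨h1, ?_, ?_⟩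
      · intro f hf f' hf' hff
        change Function.update (ζ (y ω)) a (ζ' (y ω)) f =
          Function.update (ζ (y ω)) a (ζ' (y ω)) f' at hff
        rw [coe_insert, Set.mem_insert_iff] at hf hf'
        rcases hf with rfl | hf <;> rcases hf' with rfl | hf'
        · rfl
        · rw [Function.update_self, hup f' hf'] at hff
          exact absurd ⟨f', hf', hff.symm⟩ h5.2
        · rw [Function.update_self, hup f hf] at hff
          exact absurd ⟨f, hf, hff⟩ h5.2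
        · rw [hup f hf, hup f' hf'] at hff
          exact h2 hf hf' hff
      · intro f hf
        change Rich G k r (u ω) (Function.update (ζ (y ω)) a (ζ' (y ω)) f) ∧
          Function.update (ζ (y ω)) a (ζ' (y ω)) f ∉ S ω
        rw [mem_insert] at hf
        rcases hf with rfl | hf
        · simp only [Function.update_self]
          exact ⟨h4, h5.1⟩
        · rw [hup f hf]
          exact h3 f hf
  obtain ⟨ζ, hζ⟩ := key univ
  refine ⟨ζ, ?_⟩
  rw [card_univ] at hζ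
  refine hζ.trans (Nat.mul_le_mul_left _ (card_le_card ?_))
  intro ω hω
  rw [mem_filter] at hω ⊢
  refine ⟨hω.1, ?_, fun f => hω.2.2 f (mem_univ f)⟩
  intro f f' hff
  exact hω.2.1 (mem_coe.2 (mem_univ f)) (mem_coe.2 (mem_univ f')) hff

end Pool.Agent.Helper14.SP
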